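import Mathlib

/-!
From weighted averages over `N / 2 ^ m` to the upper logarithmic Banach density.
-/

set_option autoImplicit false

open Finset

namespace Pool.Agent.H66.AAS

theorem sum_inv_le (x y : ℕ) (hx : 0 < x) (hxy : x ≤ y) :
    ∑ n ∈ Finset.Icc x y, (1 : ℝ) / n ≤ 1 + Real.log (y / x) := by
  induction y, hxy using Nat.le_induction with
  | base =>
    have hx0 : (0 : ℝ) < x := by exact_mod_cast hx
    have hx1 : (1 : ℝ) ≤ x := by exact_mod_cast hx
    rw [Finset.Icc_self, Finset.sum_singleton, div_self hx0.ne', Real.log_one, add_zero]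
    rw [div_le_one hx0]
    exact hx1
  | succ y hy ih =>
    have hx0 : (0 : ℝ) < x := by exact_mod_cast hx
    have hy0 : (0 : ℝ) < y := by
      have : 0 < y := by omega
      exact_mod_cast this
    have e1 : Finset.Icc x (y + 1) = insert (y + 1) (Finset.Icc x y) := by
      ext n
      simp only [Finset.mem_Icc, Finset.mem_insert]
      omega
    rw [e1, Finset.sum_insert (by simp)]
    have h1 := Real.one_sub_inv_le_log_of_pos (show (0 : ℝ) < ((y : ℝ) + 1) / y by positivity)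
    have h2 : (1 : ℝ) - (((y : ℝ) + 1) / y)⁻¹ = 1 / ((y : ℝ) + 1) := by
      rw [inv_div]
      field_simp
      ring
    rw [h2] at h1
    have h3 : Real.log (((y + 1 : ℕ) : ℝ) / x) = Real.log (((y : ℝ) + 1) / y) +
        Real.log ((y : ℝ) / x) := by
      rw [← Real.log_mul (by positivity) (by positivity)]
      congr 1
      push_cast
      field_simp
    rw [h3]
    push_cast
    linarith

open Classical in
/-- One shift by a power of two. -/
theorem shift_le (S : Finset ℕ) (m A x y : ℕ) (hmA : m ≤ A)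
    (hS : ∀ n ∈ S, 0 < n ∧ x ≤ n ∧ n ≤ y) :
    ∑ n ∈ S, (1 : ℝ) / (n + 1) ≤
      ∑ N ∈ (Finset.Icc x (2 ^ A * (y + 1))).filter (fun N => N / 2 ^ m ∈ S), (1 : ℝ) / N := by
  set R := (Finset.Icc x (2 ^ A * (y + 1))).filter (fun N => N / 2 ^ m ∈ S) with hR
  have hfib : ∑ n ∈ S, ∑ N ∈ R.filter (fun N => N / 2 ^ m = n), (1 : ℝ) / N =
      ∑ N ∈ R, (1 : ℝ) / N :=
    Finset.sum_fiberwise_of_maps_to (fun N hN => (Finset.mem_filter.1 hN).2) _
  rw [← hfib]
  refine Finset.sum_le_sum fun n hn => ?_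
  obtain ⟨hn0, hnx, hny⟩ := hS n hn
  have hp : 0 < 2 ^ m := by positivity
  have hsub : Finset.Ico (2 ^ m * n) (2 ^ m * (n + 1)) ⊆
      R.filter (fun N => N / 2 ^ m = n) := by
    intro N hN
    rw [Finset.mem_Ico] at hN
    have h1 : N / 2 ^ m = n := by
      apply Nat.div_eq_of_lt_le
      · linarith [mul_comm n (2 ^ m), hN.1]
      · have := hN.2
        rw [mul_comm] at this
        exact this
    rw [Finset.mem_filter, hR, Finset.mem_filter, Finset.mem_Icc]
    refine ⟨⟨⟨?_, ?_⟩, ?_⟩, h1⟩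
    · have h2 : n ≤ 2 ^ m * n := Nat.le_mul_of_pos_left n hp
      omega
    · have h2 : 2 ^ m * (n + 1) ≤ 2 ^ A * (y + 1) :=
        Nat.mul_le_mul (Nat.pow_le_pow_right (by norm_num) hmA) (by omega)
      omega
    · rw [h1]; exact hn
  refine le_trans ?_ (Finset.sum_le_sum_of_subset_of_nonneg hsub fun N _ _ => by positivity)
  have h3 : ∀ N ∈ Finset.Ico (2 ^ m * n) (2 ^ m * (n + 1)),
      1 / ((2 : ℝ) ^ m * (n + 1)) ≤ (1 : ℝ) / N := by
    intro N hN
    rw [Finset.mem_Ico] at hN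
    have hN0 : 0 < N := lt_of_lt_of_le (Nat.mul_pos hp hn0) hN.1
    have hN0' : (0 : ℝ) < N := by exact_mod_cast hN0
    have h4 : (N : ℝ) ≤ 2 ^ m * (n + 1) := by exact_mod_cast hN.2.le
    exact one_div_le_one_div_of_le hN0' h4
  refine le_trans (le_of_eq ?_) (Finset.sum_le_sum h3)
  rw [Finset.sum_const, Nat.card_Ico, nsmul_eq_mul]
  have h5 : 2 ^ m * (n + 1) - 2 ^ m * n = 2 ^ m := by
    rw [mul_add, mul_one]; omega
  rw [h5]
  push_cast
  have : (0 : ℝ) < (n : ℝ) + 1 := by positivity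
  field_simp

open Classical in
theorem banach (bad : ℕ → Prop) (h : ∀ ρ : ℝ, 0 < ρ → ∃ (M : Finset ℕ) (wt : ℕ → ℝ),
    (∀ m ∈ M, 0 ≤ wt m) ∧ ∑ m ∈ M, wt m = 1 ∧ ∃ N₀ : ℕ, ∀ N, N₀ ≤ N →
      ∑ m ∈ M.filter (fun m => bad (N / 2 ^ m)), wt m ≤ ρ) :
    ∀ ρ : ℝ, 0 < ρ → ∃ K : ℕ, ∀ x y : ℕ, 0 < x → K * x ≤ y →
      ∑ n ∈ (Finset.Icc x y).filter bad, (1 : ℝ) / n ≤ ρ * Real.log (y / x) := by
  intro ρ hρ
  obtain ⟨M, wt, hwt0, hwt1, N₀, hN₀⟩ := h (ρ / 4) (by positivity)
  obtain ⟨A, hA⟩ : ∃ A : ℕ, ∀ m ∈ M, m ≤ A := ⟨M.sup id, fun m hm => Finset.le_sup (f := id) hm⟩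
  obtain ⟨L, hL⟩ : ∃ L : ℝ, L = (N₀ + ρ / 2 * (1 + Real.log (2 * 2 ^ A))) / (ρ / 2) := ⟨_, rfl⟩
  obtain ⟨K, hK⟩ := exists_nat_gt (Real.exp L)
  refine ⟨K + 1, fun x y hx hxy => ?_⟩
  have hx0 : (0 : ℝ) < x := by exact_mod_cast hx
  have hxy1 : x ≤ y := by
    have : x ≤ (K + 1) * x := Nat.le_mul_of_pos_left x (by omega)
    omega
  have hy0 : (0 : ℝ) < y := lt_of_lt_of_le hx0 (by exact_mod_cast hxy1)
  have hlog : L ≤ Real.log (y / x) := by
    rw [Real.le_log_iff_exp_le (by positivity), le_div_iff₀ hx0]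
    have h1 : ((K + 1 : ℕ) : ℝ) * x ≤ y := by exact_mod_cast hxy
    push_cast at h1
    nlinarith
  -- split at `N₀`
  set S := ((Finset.Icc x y).filter bad).filter (fun n => N₀ ≤ n) with hS
  have hsplit : ∑ n ∈ (Finset.Icc x y).filter bad, (1 : ℝ) / n ≤ N₀ + ∑ n ∈ S, (1 : ℝ) / n := by
    rw [← Finset.sum_filter_not_add_sum_filter _ (fun n => N₀ ≤ n)]
    gcongr
    calc ∑ n ∈ ((Finset.Icc x y).filter bad).filter (fun n => ¬ N₀ ≤ n), (1 : ℝ) / n
        ≤ ∑ n ∈ ((Finset.Icc x y).filter bad).filter (fun n => ¬ N₀ ≤ n), (1 : ℝ) := by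
          refine Finset.sum_le_sum fun n hn => ?_
          rw [Finset.mem_filter, Finset.mem_filter, Finset.mem_Icc] at hn
          have h1 : 1 ≤ n := by omega
          have h2 : (1 : ℝ) ≤ n := by exact_mod_cast h1
          rw [div_le_one (by linarith)]
          exact h2
      _ = ((((Finset.Icc x y).filter bad).filter (fun n => ¬ N₀ ≤ n)).card : ℝ) := by
          rw [Finset.sum_const, nsmul_eq_mul, mul_one]
      _ ≤ ((Finset.range N₀).card : ℝ) := by
          refine Nat.cast_le.2 (Finset.card_le_card ?_)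
          intro n hn
          rw [Finset.mem_filter] at hn
          rw [Finset.mem_range]
          omega
      _ = N₀ := by rw [Finset.card_range]
  have hSmem : ∀ n ∈ S, 0 < n ∧ x ≤ n ∧ n ≤ y := by
    intro n hn
    rw [hS, Finset.mem_filter, Finset.mem_filter, Finset.mem_Icc] at hn
    omega
  have hhalf : ∑ n ∈ S, (1 : ℝ) / n ≤ 2 * ∑ n ∈ S, (1 : ℝ) / (n + 1) := by
    rw [Finset.mul_sum]
    refine Finset.sum_le_sum fun n hn => ?_
    have h1 : 1 ≤ n := (hSmem n hn).1
    have h2 : (1 : ℝ) ≤ n := by exact_mod_cast h1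
    rw [mul_one_div, div_le_div_iff₀ (by linarith) (by linarith)]
    linarith
  -- average over `N`
  set T := Finset.Icc x (2 ^ A * (y + 1)) with hT
  have havg : ∑ n ∈ S, (1 : ℝ) / (n + 1) ≤ ρ / 4 * ∑ N ∈ T, (1 : ℝ) / N := by
    calc ∑ n ∈ S, (1 : ℝ) / (n + 1) = ∑ m ∈ M, wt m * ∑ n ∈ S, (1 : ℝ) / (n + 1) := by
          rw [← Finset.sum_mul, hwt1, one_mul]
      _ ≤ ∑ m ∈ M, wt m * ∑ N ∈ T.filter (fun N => N / 2 ^ m ∈ S), (1 : ℝ) / N := by
          refine Finset.sum_le_sum fun m hm => ?_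
          exact mul_le_mul_of_nonneg_left (shift_le S m A x y (hA m hm) hSmem) (hwt0 m hm)
      _ = ∑ N ∈ T, (∑ m ∈ M, if N / 2 ^ m ∈ S then wt m else 0) * ((1 : ℝ) / N) := by
          simp only [Finset.sum_filter, Finset.mul_sum, Finset.sum_mul]
          rw [Finset.sum_comm]
          refine Finset.sum_congr rfl fun N _ => Finset.sum_congr rfl fun m _ => ?_
          split_ifs <;> ring
      _ ≤ ∑ N ∈ T, ρ / 4 * ((1 : ℝ) / N) := by
          refine Finset.sum_le_sum fun N hN => ?_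
          apply mul_le_mul_of_nonneg_right _ (by positivity)
          by_cases hNN : N₀ ≤ N
          · refine le_trans ?_ (hN₀ N hNN)
            rw [Finset.sum_filter]
            refine Finset.sum_le_sum fun m hm => ?_
            by_cases h1 : N / 2 ^ m ∈ S
            · have h2 : bad (N / 2 ^ m) := by
                rw [hS, Finset.mem_filter, Finset.mem_filter] at h1
                exact h1.1.2
              rw [if_pos h1, if_pos h2]
            · rw [if_neg h1]
              split_ifs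
              · exact hwt0 m hm
              · exact le_refl _
          · have h0 : ∑ m ∈ M, (if N / 2 ^ m ∈ S then wt m else 0) = 0 := by
              refine Finset.sum_eq_zero fun m _ => ?_
              rw [if_neg]
              intro h1
              rw [hS, Finset.mem_filter] at h1
              have := Nat.div_le_self N (2 ^ m)
              omega
            rw [h0]
            positivity
      _ = ρ / 4 * ∑ N ∈ T, (1 : ℝ) / N := by rw [Finset.mul_sum]
  have hTsum : ∑ N ∈ T, (1 : ℝ) / N ≤ 1 + (Real.log (2 * 2 ^ A) + Real.log (y / x)) := by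
    have h1 : x ≤ 2 ^ A * (y + 1) := by
      have : y + 1 ≤ 2 ^ A * (y + 1) := Nat.le_mul_of_pos_left _ (by positivity)
      omega
    refine (sum_inv_le x (2 ^ A * (y + 1)) hx h1).trans ?_
    have h2 : Real.log (((2 ^ A * (y + 1) : ℕ) : ℝ) / x) ≤
        Real.log (2 * 2 ^ A) + Real.log (y / x) := by
      rw [← Real.log_mul (by positivity) (by positivity)]
      apply Real.log_le_log
      · positivity
      · push_cast
        rw [mul_div_assoc', div_le_div_iff_of_pos_right hx0]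
        have h3 : (1 : ℝ) ≤ y := by
          have : 1 ≤ y := by omega
          exact_mod_cast this
        have h4 : (0 : ℝ) < 2 ^ A := by positivity
        nlinarith
    linarith
  have hρ4 : (0 : ℝ) ≤ ρ / 4 := by positivity
  have h5 := mul_le_mul_of_nonneg_left hTsum hρ4
  have h6 : N₀ + ρ / 2 * (1 + Real.log (2 * 2 ^ A)) ≤ ρ / 2 * Real.log (y / x) := by
    have h7 : L * (ρ / 2) = N₀ + ρ / 2 * (1 + Real.log (2 * 2 ^ A)) := by
      rw [hL, div_mul_cancel₀ _ (by positivity)]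
    rw [← h7, mul_comm]
    exact mul_le_mul_of_nonneg_left hlog (by positivity)
  linarith

end Pool.Agent.H66.AAS
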