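import Pool.Agent.H24.T2.Psk
import Pool.Agent.H24.T2.Covk
import Pool.Agent.H24.T2.Loc
import Pool.Agent.H18.T2.EN2
import Pool.Agent.H18.T2.Multi
import Pool.Agent.H14.T2.Mom
import Pool.Agent.H14.T2.Mrd
import Pool.Agent.H24.MR.Top

/-!
The local step for one scale: a finite weighted set of dyadic scales, chosen before the measure.
-/

set_option autoImplicit false

open Finset Filter Topology

namespace Pool.Agent.H66.AAS

open Pool.Agent.H24.MR
open Pool.Agent.H24.T2
open Pool.Agent.H59.MR (ratio tendsto_dens finAddInv_dens fai_mono)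

/-- The theorem of Matomaki and Radziwill in progressions for the densities along ultrafilters;
the window does not depend on the ultrafilter and the sequence. -/
theorem mr_unif (W b : ℕ) (ε : ℝ) (hW : 0 < W) (hε : 0 < ε) : ∃ h₀ : ℕ, ∀ h, h₀ ≤ h →
    ∀ (U : Ultrafilter ℕ) (N : ℕ → ℕ), Tendsto N (U : Filter ℕ) atTop →
      dens U N {z | z ≡ b [MOD W] ∧ ε * h ≤ |∑ y ∈ Finset.range h, lam (z + W * y)|} ≤ ε := by
  classical
  obtain ⟨h₀, hh₀⟩ := mr W (b % W) (ε ^ 3 / 2) hW (by positivity)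
  refine ⟨h₀ + 1, fun h hh U N hN => ?_⟩
  obtain ⟨N₀, hN₀⟩ := hh₀ h (by omega)
  have hhr : (0 : ℝ) < h := by exact_mod_cast (by omega : 0 < h)
  set E : Set ℕ := {z | z ≡ b [MOD W] ∧ ε * h ≤ |∑ y ∈ Finset.range h, lam (z + W * y)|} with hE
  refine le_of_tendsto (tendsto_dens U N E) ?_
  filter_upwards [hN.eventually (eventually_ge_atTop (W * (N₀ + 1)))] with k hk
  set M := N k / W + 1 with hM
  have hMN : N₀ ≤ M := by
    have : N₀ + 1 ≤ N k / W := (Nat.le_div_iff_mul_le hW).2 (by rw [mul_comm]; exact hk)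
    omega
  have hNk : 0 < N k := lt_of_lt_of_le (by positivity) hk
  have hMk : M ≤ 2 * N k := by
    have := Nat.div_le_self (N k) W
    omega
  have hb : b % W < W := Nat.mod_lt _ hW
  set T : Finset ℕ := (Finset.range M).filter fun z =>
    ε * h ≤ |∑ y ∈ Finset.range h, lam (W * (z + y) + b % W)| with hT
  have hcard : ((Finset.range (N k)).filter fun m => m ∈ E).card ≤ T.card := by
    refine Finset.card_le_card_of_injOn (fun z => z / W) ?_ ?_
    · intro z hz
      rw [Finset.mem_coe, mem_filter, mem_range, hE] at hz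
      obtain ⟨hz1, hz2, hz3⟩ := hz
      rw [Finset.mem_coe, hT, mem_filter, mem_range]
      have h1 : z % W = b % W := hz2
      have h2 : W * (z / W) + b % W = z := by rw [← h1]; exact Nat.div_add_mod z W
      refine ⟨?_, ?_⟩
      · have : z / W ≤ N k / W := Nat.div_le_div_right hz1.le
        change z / W < M
        omega
      · change ε * h ≤ |∑ y ∈ Finset.range h, lam (W * (z / W + y) + b % W)|
        have h3 : ∀ y, W * (z / W + y) + b % W = z + W * y := by
          intro y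
          calc W * (z / W + y) + b % W = (W * (z / W) + b % W) + W * y := by ring
            _ = z + W * y := by rw [h2]
        simp only [h3]
        exact hz3
    · intro y hy z hz hyz
      rw [Finset.mem_coe, mem_filter, hE] at hy hz
      have hyz' : y / W = z / W := hyz
      have h1 : y % W = b % W := hy.2.1
      have h2 : z % W = b % W := hz.2.1
      rw [← Nat.div_add_mod y W, ← Nat.div_add_mod z W, h1, h2, hyz']
  have hsq : (T.card : ℝ) * (ε * h) ^ 2 ≤ ε ^ 3 / 2 * h ^ 2 * M := by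
    refine le_trans ?_ (hN₀ M hMN)
    have h1 : (T.card : ℝ) * (ε * h) ^ 2 = ∑ z ∈ T, (ε * h) ^ 2 := by
      rw [Finset.sum_const, nsmul_eq_mul]
    rw [h1]
    have h2 : ∑ z ∈ T, (∑ y ∈ Finset.range h, lam (W * (z + y) + b % W)) ^ 2 ≤
        ∑ z ∈ Finset.range M, (∑ y ∈ Finset.range h, lam (W * (z + y) + b % W)) ^ 2 :=
      Finset.sum_le_sum_of_subset_of_nonneg (Finset.filter_subset _ _) fun _ _ _ => sq_nonneg _
    refine le_trans ?_ h2
    refine Finset.sum_le_sum fun z hz => ?_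
    rw [hT, mem_filter] at hz
    rw [← sq_abs (∑ y ∈ Finset.range h, lam (W * (z + y) + b % W))]
    exact pow_le_pow_left₀ (by positivity) hz.2 2
  have hfin : (T.card : ℝ) ≤ ε * N k := by
    have h1 : (0 : ℝ) < (ε * h) ^ 2 := by positivity
    have h2 : (M : ℝ) ≤ 2 * N k := by exact_mod_cast hMk
    refine le_of_mul_le_mul_right ?_ h1
    refine hsq.trans ?_
    calc ε ^ 3 / 2 * (h : ℝ) ^ 2 * M ≤ ε ^ 3 / 2 * (h : ℝ) ^ 2 * (2 * N k) := by gcongr
      _ = ε * N k * (ε * h) ^ 2 := by ring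
  unfold ratio
  have hNk' : (0 : ℝ) < N k := by exact_mod_cast hNk
  rw [div_le_iff₀ hNk']
  refine le_trans (Nat.cast_le.2 ?_) hfin
  convert hcard

/-- The local step. -/
theorem locn (k : ℕ) : ∃ η : ℝ, 0 < η ∧ ∀ (Q : ℕ) (β : Fin (k + 1) → ℕ), 0 < Q → Even Q →
    Function.Injective β → ∀ ρ : ℝ, 0 < ρ →
    ∃ (M : Finset ℕ) (wt : ℕ → ℝ), (∀ m ∈ M, 0 ≤ wt m) ∧ ∑ m ∈ M, wt m = 1 ∧
      ∀ (U : Ultrafilter ℕ) (N : ℕ → ℕ), Tendsto N (U : Filter ℕ) atTop → ∀ B ⊆ M,
        (∀ m ∈ B, ∃ (c : ℕ) (σ : ℝ), σ ≠ 0 ∧ ∀ p ∈ Pset Q m,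
          dens U N {y | y ≡ c [MOD Q] ∧ p ∣ y ∧ rel β lam p y ≠ σ} ≤ η / (p * Q)) →
        ∑ m ∈ B, wt m ≤ ρ := by
  classical
  have hpsk : StatementPSK := psk (by
    intro K
    obtain ⟨C, E, hC, h⟩ := Pool.Agent.H18.T2.multi_bound K
    exact ⟨C, E, hC, fun Q a N z U _ hQ hU hz hza => h Q a N z U hQ hU hz hza⟩)
    (fun k M => Pool.Agent.H14.T2.mom k M)
  obtain ⟨c₀, hc₀, hEN⟩ := Pool.Agent.H18.T2.en2
  obtain ⟨c₁, hc₁, hPS⟩ := hpsk k (1 / 4 * c₀) (by positivity)
  obtain ⟨Cc, hCc, hCOV⟩ := covk k c₁ hc₁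
  set A : ℝ := Cc * 2 ^ k with hA
  have hA0 : 0 < A := by positivity
  set θ : ℝ := min (1 / 8) (1 / (16 * A)) with hθ
  have hθ0 : 0 < θ := lt_min (by positivity) (by positivity)
  have hθ1 : θ ≤ 1 / 8 := min_le_left _ _
  have hθ2 : θ ≤ 1 / (16 * A) := min_le_right _ _
  set η₂ : ℝ := 1 / (160 * A) with hη₂
  have hη₂0 : 0 < η₂ := by positivity
  refine ⟨1 / 8 * η₂, by positivity, ?_⟩
  intro Q β hQ hQe hβ ρ hρ
  have hQ0 : (0 : ℝ) < Q := by exact_mod_cast hQ
  obtain ⟨m₁, hPS⟩ := hPS Q hQ hQe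
  have hγ : ∀ i : Fin k, (β 0 : ℤ) - β i.succ ≠ 0 := by
    intro i h0
    have h1 : β 0 = β i.succ := by exact_mod_cast sub_eq_zero.1 h0
    exact absurd (hβ h1) (Fin.succ_ne_zero i).symm
  obtain ⟨Ms, Mt, hMs, hMt, hCOV⟩ := hCOV (fun i => (β 0 : ℤ) - β i.succ) hγ
  -- the window
  have hMs0 : (0 : ℝ) < Ms := by exact_mod_cast hMs
  set ε : ℝ := min (1 / 2) (1 / (64 * Q * (Q * Ms))) with hε
  have hε0 : 0 < ε := lt_min (by norm_num) (by positivity)
  have hε1 : ε ≤ 1 / 2 := min_le_left _ _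
  have hε2 : ε ≤ 1 / (64 * Q * (Q * Ms)) := min_le_right _ _
  choose h0 hh0 using fun b => mr_unif (Q * Ms) b ε (Nat.mul_pos hQ hMs) hε0
  set h : ℕ := 1 + ∑ b ∈ Finset.range (Q * Ms), h0 b with hh
  have hhb : ∀ b ∈ Finset.range (Q * Ms), h0 b ≤ h := by
    intro b hb
    have := Finset.single_le_sum (f := h0) (fun _ _ => Nat.zero_le _) hb
    omega
  have hhpos : 0 < h := by omega
  -- scales
  obtain ⟨M, wt, hM, hwt1, hDec⟩ := hEN Q (k + 1) β θ (ρ / Q) (max (max m₁ 1) (Q * (h * Mt))) hQ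
    hθ0 (by positivity)
  refine ⟨M, wt, fun m hm => (hM m hm).2.2, hwt1, ?_⟩
  intro U N hN B hBM hB
  have hν : FinAddInv (dens U N) := finAddInv_dens hN
  have hMm : ∀ m ∈ M, m₁ ≤ m ∧ 1 ≤ m ∧ h * Mt ≤ 2 ^ m / Q := by
    intro m hm
    have h1 := (hM m hm).1
    refine ⟨(le_max_left _ _).trans ((le_max_left _ _).trans h1),
      (le_max_right _ _).trans ((le_max_left _ _).trans h1), ?_⟩
    have h2 : Q * (h * Mt) ≤ 2 ^ m := ((le_max_right _ _).trans h1).trans Nat.lt_two_pow_self.le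
    rw [Nat.le_div_iff_mul_le hQ]
    linarith [mul_comm Q (h * Mt)]
  by_contra hcon
  push Not at hcon
  -- a scale with decoupling for all classes
  obtain ⟨m, hmB, hmDec⟩ : ∃ m ∈ B, ∀ u ∈ Finset.range Q, Dec β (dens U N) lam Q u θ m := by
    by_contra hno
    push Not at hno
    have h1 : ∑ m ∈ B, wt m ≤ ∑ u ∈ Finset.range Q,
        ∑ m ∈ M.filter (fun m => ¬ Dec β (dens U N) lam Q u θ m), wt m := by
      calc ∑ m ∈ B, wt m ≤ ∑ m ∈ B, ∑ u ∈ Finset.range Q,
            (if ¬ Dec β (dens U N) lam Q u θ m then wt m else 0) := by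
            refine Finset.sum_le_sum fun m hm => ?_
            obtain ⟨u, hu, hnu⟩ := hno m hm
            have h2 := Finset.single_le_sum
              (f := fun u => if ¬ Dec β (dens U N) lam Q u θ m then wt m else 0)
              (fun u _ => by split_ifs <;> first | exact (hM m (hBM hm)).2.2 | exact le_refl _) hu
            simp only [if_pos hnu] at h2
            exact h2
        _ ≤ ∑ m ∈ M, ∑ u ∈ Finset.range Q,
            (if ¬ Dec β (dens U N) lam Q u θ m then wt m else 0) := by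
            refine Finset.sum_le_sum_of_subset_of_nonneg hBM fun m hm _ => ?_
            refine Finset.sum_nonneg fun u _ => ?_
            split_ifs <;> first | exact (hM m hm).2.2 | exact le_refl _
        _ = _ := by
            rw [Finset.sum_comm]
            refine Finset.sum_congr rfl fun u _ => ?_
            rw [Finset.sum_filter]
    have h2 : ∀ u ∈ Finset.range Q,
        ∑ m ∈ M.filter (fun m => ¬ Dec β (dens U N) lam Q u θ m), wt m ≤ ρ / Q := by
      intro u _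
      exact hDec (dens U N) hν lam lam_or u _ (Finset.filter_subset _ _)
        (fun m hm => (Finset.mem_filter.1 hm).2)
    have h3 := h1.trans (Finset.sum_le_sum h2)
    rw [Finset.sum_const, Finset.card_range, nsmul_eq_mul, mul_div_cancel₀ _ hQ0.ne'] at h3
    linarith
  obtain ⟨c, σ, hσ, hrel⟩ := hB m hmB
  have hmM := hBM hmB
  obtain ⟨hmm1, hmm2, hmm3⟩ := hMm m hmM
  set c' : ℕ := c % Q with hc'
  have hc'Q : c' ∈ Finset.range Q := Finset.mem_range.2 (Nat.mod_lt _ hQ)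
  have hcc : ∀ y : ℕ, y ≡ c' [MOD Q] ↔ y ≡ c [MOD Q] := by
    intro y
    simp only [Nat.ModEq, hc', Nat.mod_mod]
  have hrel' : ∀ p ∈ Pset Q m,
      dens U N {y | y ≡ c' [MOD Q] ∧ p ∣ y ∧ rel β lam p y ≠ σ} ≤ 1 / 8 * η₂ / (p * Q) := by
    intro p hp
    simp only [hcc]
    exact hrel p hp
  have hfilt : (Pset Q m).filter (fun p => (fun _ : ℕ => σ) p ≠ 0) = Pset Q m := by
    apply Finset.filter_true_of_mem
    intro p _
    exact hσ
  have hper : ∀ j, j < h → dens U N {z | z ≡ c' + β 0 [MOD Q] ∧ lam z ≠ lam (z + Q * Ms * j)}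
      ≤ 1 / (8 * Q) := by
    intro j hj
    refine (cell_step hν 1 c₀ c₁ Cc θ η₂ one_pos hθ0.le hθ1 Q c' m Ms Mt hQ β
      (hM m hmM).2.1 (hPS m hmm1) hCOV (fun _ => σ) ?_ ?_ hη₂0 (hmDec c' hc'Q) j
      ((Nat.mul_le_mul_right Mt hj.le).trans hmm3)).trans ?_
    · rw [hfilt]
      have : (0 : ℝ) ≤ (Pset Q m).card := Nat.cast_nonneg _
      linarith
    · rw [hfilt]
      calc _ ≤ ∑ _p ∈ Pset Q m, 1 / 8 * η₂ := by
            refine Finset.sum_le_sum fun p hp => ?_
            have h1 := hrel' p hp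
            have hp0 : (0 : ℝ) < p := by
              have h2 : p.Prime := by
                unfold Pset at hp
                exact (Finset.mem_filter.1 hp).2.1
              exact_mod_cast h2.pos
            rw [le_div_iff₀ (by positivity)] at h1
            linarith [mul_comm ((p : ℝ) * Q)
              (dens U N {y | y ≡ c' [MOD Q] ∧ p ∣ y ∧ rel β lam p y ≠ σ})]
        _ = 1 / 8 * η₂ * (Pset Q m).card := by rw [Finset.sum_const, nsmul_eq_mul, mul_comm]
    · rw [div_le_div_iff₀ hQ0 (by positivity)]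
      have e1 : Cc * (2 ^ k * (10 * η₂ + θ)) = A * (10 * η₂ + θ) := by rw [hA]; ring
      rw [e1]
      have e2 : A * (10 * η₂ + θ) ≤ 1 / 8 := by
        calc A * (10 * η₂ + θ) ≤ A * (10 * η₂ + 1 / (16 * A)) := by gcongr
          _ = 1 / 8 := by rw [hη₂]; field_simp; norm_num
      nlinarith
  have h1 := lam_sum_large hν Q Ms (c' + β 0) h hQ hhpos ε hε1 hper
  have hMRtot : dens U N {z | z ≡ c' + β 0 [MOD Q] ∧
      ε * h ≤ |∑ y ∈ Finset.range h, lam (z + Q * Ms * y)|} ≤ 1 / (64 * Q) := by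
    rw [fa_fiber hν (fun z => z % (Q * Ms)) (Finset.range (Q * Ms))
      (fun n => Finset.mem_range.2 (Nat.mod_lt _ (Nat.mul_pos hQ hMs)))]
    calc _ ≤ ∑ b ∈ Finset.range (Q * Ms), ε := by
          refine Finset.sum_le_sum fun b hb => ?_
          refine le_trans (fai_mono hν ?_) (hh0 b h (hhb b hb) U N hN)
          rintro z ⟨⟨_, hz2⟩, hz3⟩
          refine ⟨?_, ?_⟩
          · have hb' := Finset.mem_range.1 hb
            show z % (Q * Ms) = b % (Q * Ms)
            rw [Nat.mod_eq_of_lt hb']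
            exact hz3
          · exact hz2
      _ = (Q * Ms : ℕ) * ε := by rw [Finset.sum_const, Finset.card_range, nsmul_eq_mul]
      _ ≤ (Q * Ms : ℕ) * (1 / (64 * Q * (Q * Ms))) := by gcongr
      _ = 1 / (64 * Q) := by push_cast; field_simp
  have h2 := h1.trans hMRtot
  rw [div_le_div_iff₀ (by positivity) (by positivity)] at h2
  linarith

end Pool.Agent.H66.AAS
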