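import Pool.Agent.H66.AAS.Loc
import Pool.Agent.H14.T2.SCF

/-!
From bad scales to the local step.
-/

set_option autoImplicit false

open Finset Filter Topology

namespace Pool.Agent.H66.AAS

open Pool.Agent.H24.MR
open Pool.Agent.H24.T2
open Pool.Agent.H14.T2
open Pool.Agent.H27.MR (WW WW_pos le_WW sq_dvd_WW)
open Pool.Agent.H59.MR (ratio tendsto_dens finAddInv_dens fai_mono)

open Classical in
/-- A density bound from a counting bound at the lengths of the sequence. -/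
theorem dens_le_of_ev {U : Ultrafilter ℕ} {N : ℕ → ℕ} (hN : Tendsto N (U : Filter ℕ) atTop)
    (E : Set ℕ) (κ C₁ C₂ : ℝ) (C₃ : ℕ) (hC₂ : 0 ≤ C₂)
    (h : ∀ᶠ k in (U : Filter ℕ), (((range (N k)).filter fun m => m ∈ E).card : ℝ) ≤
      κ * N k + C₁ + C₂ * (Nat.sqrt (N k + C₃) : ℝ)) :
    dens U N E ≤ κ := by
  have h1 : Tendsto (fun k => ratio E (N k)) (U : Filter ℕ) (𝓝 (dens U N E)) := tendsto_dens U N E
  have hinv : Tendsto (fun n : ℕ => (1 : ℝ) / n) atTop (𝓝 0) := tendsto_one_div_atTop_nhds_zero_nat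
  have hsq : Tendsto (fun n : ℕ => (1 : ℝ) / √(n : ℝ)) atTop (𝓝 0) := by
    have : Tendsto (fun n : ℕ => √(n : ℝ)) atTop atTop :=
      Real.tendsto_sqrt_atTop.comp tendsto_natCast_atTop_atTop
    refine this.inv_tendsto_atTop.congr fun n => ?_
    rw [Pi.inv_apply, one_div]
  have h3 : Tendsto (fun k => κ + C₁ * (1 / (N k : ℝ)) +
      C₂ * √(1 + C₃ : ℝ) * (1 / √(N k : ℝ))) (U : Filter ℕ) (𝓝 (κ + C₁ * 0 +
      C₂ * √(1 + C₃ : ℝ) * 0)) :=
    (((hinv.comp hN).const_mul C₁).const_add κ).add ((hsq.comp hN).const_mul _)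
  have h4 : κ + C₁ * 0 + C₂ * √(1 + C₃ : ℝ) * 0 = κ := by ring
  rw [h4] at h3
  refine le_of_tendsto_of_tendsto h1 h3 ?_
  filter_upwards [hN.eventually (eventually_ge_atTop 1), h] with k hk h5
  have hk0 : (0 : ℝ) < N k := by exact_mod_cast hk
  have hk1 : (1 : ℝ) ≤ N k := by exact_mod_cast hk
  unfold ratio
  rw [div_le_iff₀ hk0]
  refine h5.trans ?_
  have h6 : (Nat.sqrt (N k + C₃) : ℝ) ≤ √(1 + C₃ : ℝ) * √(N k : ℝ) := by
    refine (Real.nat_sqrt_le_real_sqrt).trans ?_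
    rw [← Real.sqrt_mul (by positivity)]
    apply Real.sqrt_le_sqrt
    push_cast
    nlinarith [Nat.cast_nonneg (α := ℝ) C₃]
  have h7 : 1 / √(N k : ℝ) * N k = √(N k : ℝ) := by
    have : √(N k : ℝ) ≠ 0 := (Real.sqrt_pos.2 hk0).ne'
    field_simp
    exact (Real.sq_sqrt hk0.le).symm
  calc κ * (N k : ℝ) + C₁ + C₂ * (Nat.sqrt (N k + C₃) : ℝ) ≤
      κ * (N k : ℝ) + C₁ + C₂ * (√(1 + C₃ : ℝ) * √(N k : ℝ)) := by gcongr
    _ = (κ + C₁ * (1 / (N k : ℝ)) + C₂ * √(1 + C₃ : ℝ) * (1 / √(N k : ℝ))) * (N k : ℝ) := by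
      rw [add_mul, add_mul, mul_assoc (C₂ * √(1 + C₃ : ℝ)), h7]
      field_simp

/-- The scale `N` is bad. -/
def BadS {r : ℕ} (α : Fin r → ℤ) (ε : Fin r → ℕ) (q n₀ : ℕ) (κ : ℝ) (N : ℕ) : Prop :=
  (1 - κ) * (∑ m ∈ (Finset.Icc 1 N).filter (fun m => m ≡ n₀ [MOD q]), |Fr α ε m|)
    < |∑ m ∈ (Finset.Icc 1 N).filter (fun m => m ≡ n₀ [MOD q]), Fr α ε m|

/-- The number of elements of a class in an initial segment. -/
theorem card_class (W c X : ℕ) (hW : 0 < W) :
    (((Finset.Icc 1 X).filter (fun n => n ≡ c [MOD W])).card : ℝ) ≤ X / W + 1 := by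
  have h1 : ((Finset.Icc 1 X).filter (fun n => n ≡ c [MOD W])).card ≤ X / W + 1 := by
    have h2 : ((Finset.Icc 1 X).filter (fun n => n ≡ c [MOD W])).card ≤
        (Finset.range (X / W + 1)).card := by
      refine Finset.card_le_card_of_injOn (fun n => n / W) ?_ ?_
      · intro n hn
        rw [Finset.mem_coe, mem_filter, Finset.mem_Icc] at hn
        rw [Finset.mem_coe, mem_range]
        have := Nat.div_le_div_right (c := W) hn.1.2
        change n / W < X / W + 1
        omega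
      · intro n hn m hm hnm
        rw [Finset.mem_coe, mem_filter] at hn hm
        have h3 : n / W = m / W := hnm
        have h4 : n % W = m % W := hn.2.trans hm.2.symm
        rw [← Nat.div_add_mod n W, ← Nat.div_add_mod m W, h3, h4]
    rwa [Finset.card_range] at h2
  have h2 : ((X / W + 1 : ℕ) : ℝ) ≤ X / W + 1 := by
    push_cast
    have : ((X / W : ℕ) : ℝ) ≤ X / W := Nat.cast_div_le
    linarith
  exact (Nat.cast_le.2 h1).trans h2

open Classical in
/-- At a bad scale there are a sign `s` and a good class with few values `-s`. -/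
theorem class_exists {r : ℕ} (α : Fin r → ℤ) (ε : Fin r → ℕ) (q n₀ W : ℕ) (hW : 0 < W)
    (hqW : q ∣ W) (κ : ℝ) (hκ : 0 < κ) (X : ℕ) (hX : W ≤ X) (hbad : BadS α ε q n₀ κ X) :
    ∃ s ∈ ({1, -1} : Finset ℝ), ∃ c ∈ Finset.range W,
      (∃ n₁, n₁ ≡ c [MOD W] ∧ n₁ ≡ n₀ [MOD q] ∧ Fr α ε n₁ ≠ 0) ∧
      (((Finset.Icc 1 X).filter (fun n => n ≡ c [MOD W] ∧ Fr α ε n = -s)).card : ℝ) ≤
        κ * (X / W) := by
  have hW0 : (0 : ℝ) < W := by exact_mod_cast hW
  have hX0 : (W : ℝ) ≤ X := by exact_mod_cast hX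
  set R := (Finset.Icc 1 X).filter (fun m => m ≡ n₀ [MOD q]) with hR
  set P := R.filter (fun m => Fr α ε m = 1) with hP
  set M := R.filter (fun m => Fr α ε m = -1) with hM
  have hdis : Disjoint P M := by
    rw [Finset.disjoint_left]
    intro m hm hm'
    have h1 := (mem_filter.1 hm).2
    have h2 := (mem_filter.1 hm').2
    rw [h1] at h2
    norm_num at h2
  -- the two sums
  have hval : ∀ m, Fr α ε m = (if Fr α ε m = 1 then 1 else 0) - (if Fr α ε m = -1 then 1 else 0) := by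
    intro m
    rcases Fr_or α ε m with h | h | h <;> rw [h] <;> norm_num
  have habs : ∀ m, |Fr α ε m| =
      (if Fr α ε m = 1 then 1 else 0) + (if Fr α ε m = -1 then 1 else 0) := by
    intro m
    rcases Fr_or α ε m with h | h | h <;> rw [h] <;> norm_num
  have hsum : ∑ m ∈ R, Fr α ε m = (P.card : ℝ) - M.card := by
    rw [Finset.sum_congr rfl (fun m _ => hval m), Finset.sum_sub_distrib, Finset.sum_boole,
      Finset.sum_boole]
  have hsuma : ∑ m ∈ R, |Fr α ε m| = (P.card : ℝ) + M.card := by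
    rw [Finset.sum_congr rfl (fun m _ => habs m), Finset.sum_add_distrib, Finset.sum_boole,
      Finset.sum_boole]
  unfold BadS at hbad
  rw [hsum, hsuma] at hbad
  -- the sign
  obtain ⟨s, hs, hs2⟩ : ∃ s ∈ ({1, -1} : Finset ℝ),
      ((R.filter (fun m => Fr α ε m = -s)).card : ℝ) < κ / 2 * (P.card + M.card) := by
    rcases le_total (M.card : ℝ) P.card with h | h
    · refine ⟨1, by simp, ?_⟩
      rw [abs_of_nonneg (by linarith)] at hbad
      change (M.card : ℝ) < _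
      nlinarith
    · refine ⟨-1, by simp, ?_⟩
      rw [abs_of_nonpos (by linarith)] at hbad
      rw [neg_neg]
      change (P.card : ℝ) < _
      nlinarith
  refine ⟨s, hs, ?_⟩
  -- good classes
  set G := (Finset.range W).filter
    (fun c => ∃ n₁, n₁ ≡ c [MOD W] ∧ n₁ ≡ n₀ [MOD q] ∧ Fr α ε n₁ ≠ 0) with hG
  have hcover : (P.card : ℝ) + M.card ≤ ∑ c ∈ G, ((X : ℝ) / W + 1) := by
    have h1 : (P ∪ M) ⊆ G.biUnion (fun c => (Finset.Icc 1 X).filter (fun n => n ≡ c [MOD W])) := by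
      intro m hm
      have hmR : m ∈ R ∧ Fr α ε m ≠ 0 := by
        rcases Finset.mem_union.1 hm with h | h
        · refine ⟨(mem_filter.1 h).1, ?_⟩
          rw [(mem_filter.1 h).2]; norm_num
        · refine ⟨(mem_filter.1 h).1, ?_⟩
          rw [(mem_filter.1 h).2]; norm_num
      rw [Finset.mem_biUnion]
      refine ⟨m % W, ?_, ?_⟩
      · rw [hG, mem_filter, mem_range]
        exact ⟨Nat.mod_lt _ hW, m, (Nat.mod_modEq m W).symm, (mem_filter.1 hmR.1).2, hmR.2⟩
      · rw [mem_filter]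
        exact ⟨(mem_filter.1 hmR.1).1, (Nat.mod_modEq m W).symm⟩
    have h2 := (Finset.card_le_card h1).trans Finset.card_biUnion_le
    rw [Finset.card_union_of_disjoint hdis] at h2
    have h3 : (P.card : ℝ) + M.card ≤
        ∑ c ∈ G, (((Finset.Icc 1 X).filter (fun n => n ≡ c [MOD W])).card : ℝ) := by
      exact_mod_cast h2
    exact h3.trans (Finset.sum_le_sum fun c _ => card_class W c X hW)
  by_contra hcon
  push Not at hcon
  have h1 : ∀ c ∈ G, κ / 2 * ((X : ℝ) / W + 1) ≤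
      (((Finset.Icc 1 X).filter (fun n => n ≡ c [MOD W] ∧ Fr α ε n = -s)).card : ℝ) := by
    intro c hc
    rw [hG, mem_filter] at hc
    have h2 := hcon c hc.1 hc.2
    refine le_trans ?_ h2.le
    have h3 : (1 : ℝ) ≤ X / W := by rw [le_div_iff₀ hW0]; linarith
    nlinarith
  have h2 : ∑ c ∈ G, (((Finset.Icc 1 X).filter
      (fun n => n ≡ c [MOD W] ∧ Fr α ε n = -s)).card : ℝ) ≤
      ((R.filter (fun m => Fr α ε m = -s)).card : ℝ) := by
    have h3 : (G.biUnion (fun c => (Finset.Icc 1 X).filter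
        (fun n => n ≡ c [MOD W] ∧ Fr α ε n = -s))).card =
        ∑ c ∈ G, ((Finset.Icc 1 X).filter (fun n => n ≡ c [MOD W] ∧ Fr α ε n = -s)).card := by
      apply Finset.card_biUnion
      intro c hc c' hc' hne
      change Disjoint _ _
      rw [Finset.disjoint_left]
      intro n hn hn'
      apply hne
      rw [hG, Finset.mem_coe, mem_filter, mem_range] at hc hc'
      have e1 : n % W = c % W := (mem_filter.1 hn).2.1
      have e2 : n % W = c' % W := (mem_filter.1 hn').2.1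
      rw [Nat.mod_eq_of_lt hc.1] at e1
      rw [Nat.mod_eq_of_lt hc'.1] at e2
      omega
    have h4 : G.biUnion (fun c => (Finset.Icc 1 X).filter
        (fun n => n ≡ c [MOD W] ∧ Fr α ε n = -s)) ⊆ R.filter (fun m => Fr α ε m = -s) := by
      intro n hn
      obtain ⟨c, hc, hn⟩ := Finset.mem_biUnion.1 hn
      rw [mem_filter] at hn
      obtain ⟨hn1, hn2, hn3⟩ := hn
      rw [hG, mem_filter] at hc
      obtain ⟨-, n₁, e1, e2, -⟩ := hc
      rw [mem_filter, hR, mem_filter]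
      refine ⟨⟨hn1, ?_⟩, hn3⟩
      exact ((hn2.trans e1.symm).of_dvd hqW).trans e2
    have h5 := Finset.card_le_card h4
    rw [h3] at h5
    exact_mod_cast h5
  have h3 := Finset.sum_le_sum h1
  rw [← Finset.mul_sum] at h3
  have h4 : κ / 2 * ((P.card : ℝ) + M.card) ≤ κ / 2 * ∑ c ∈ G, ((X : ℝ) / W + 1) :=
    mul_le_mul_of_nonneg_left hcover (by positivity)
  linarith

end Pool.Agent.H66.AAS
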